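import Pool.Agent.T9h53.AJ.Fin

/-!
# The Alternative Hypothesis with error `c / log T` fails in almost all short windows

No hypothesis is assumed. For every real `β` let `x_β(t) = t log t / 2π + β t` and
`d_j = x_β(γ_{j+1}) - x_β(γ_j)`; for `β = 0` these are the normalised spacings of the Alternative
Hypothesis. For every `ε > 0` there are `C` and `c > 0` such that for all `t` in `[T, 2T]`, except
for a set of measure at most `ε T`, the interval `[t - C log log T, t + C log log T]` contains two
consecutive ordinates `γ_j, γ_{j+1}` with `dist(d_j, {1/2, 1, 3/2, …}) ≥ c / log T`.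
In particular there are at least `c T / log log T` such `j` with `T ≤ γ_j ≤ γ_{j+1} ≤ 3T`.
This follows from a statement on the positions: for almost all `t`, in the same sense, the points
`2 x_β(γ_j)` with `γ_j` in the window are not within `c / √(log T)` of distinct points of a shifted
lattice `ℤ + φ`, even if the shift `φ = φ(γ_j)` may vary with the Lipschitz constant `c`.

Idea of the proof. Suppose that the positions in the window around `t` are of this kind. Then all
zeros `i y` of `ζ(1/2 + z)` in the window are simple and on the line, and `u Ξ(iy)`, where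
`Ξ(iy) = exp(-4π i x_β(y))` and `|u| = 1`, is close to the slowly varying `g(y)`,
`g = exp(-2π i (φ - φ(t)))`. Put `W = 1 - u Ξ + H` with `H = H₁ + H₂`, where `H₁` is a smoothing of
`g - 1` by a Gaussian of width `1 / √(log T)` and `H₂` is a function of exponential type
`log T + O(1)` (times a factor which is harmless), chosen by inverting a Gram matrix such that `W`
vanishes at all zeros `i y`; its `L²` norm is `O(c / √(log T))`, because the differences of the
ordinates are close to multiples of the critical spacing, so that the Gram matrix is close to its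
diagonal. The quotient `D(z) = W(z) / ζ(1/2 + z)` is holomorphic in the window. Its integral
against a kernel which decays doubly exponentially, over `Re z = 1` minus over `Re z = -1`, is
very small. The contribution of `1` is large on `Re z = 1` by the Dirichlet series of `1 / ζ`. That
of `u Ξ` on `Re z = -1` becomes, by the functional equation, an integral over the imaginary axis of
a Dirichlet polynomial against, asymptotically, the Mellin transform of an additive character
`e(θ x)` with `θ = θ(β) > 0`, and by Plancherel's theorem a mean square of short sums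
`∑ μ(n) e(n θ)`, which is small by the theorem of Matomäki and Radziwiłł and its extension by
Matomäki, Radziwiłł and Tao. The contribution of `H` is moved to the imaginary axis; in mean square
over `t` it is `O(c)`, since `H₁` is Lipschitz with constant `O(c)` and the antiderivative of
`∑ μ(n) n^(-1/2 - iy)`, `n ≥ 2`, is bounded in mean square, while `H₂` has the `L²` norm
`O(c / √(log T))` and only the `n ≤ C T` interact with it.
-/

open Filter Topology MeasureTheory

namespace Pool.Agent.Results.MP_f0209c_nt.AlmostAllWindows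

/-- multiplicity of `s` as a zero of the Riemann zeta function (order of vanishing at `s`) -/
noncomputable def zmult (s : ℂ) : ℕ := analyticOrderNatAt riemannZeta s

/-- the nontrivial zeros of `ζ` with ordinate in `(0, T]` -/
def zeros (T : ℝ) : Set ℂ := {s : ℂ | riemannZeta s = 0 ∧ 0 < s.re ∧ s.re < 1 ∧ 0 < s.im ∧ s.im ≤ T}

/-- the number of the nontrivial zeros of `ζ` with ordinate in `(0, T]`, with multiplicity -/
noncomputable def N (T : ℝ) : ℕ := ∑ᶠ s ∈ zeros T, zmult s

/-- for `j ≥ 1`: the `j`-th positive ordinate `γ j` of a nontrivial zero of `ζ`, the ordinates being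
listed in nondecreasing order and repeated according to multiplicity -/
noncomputable def γ (j : ℕ) : ℝ := sInf {t : ℝ | j ≤ N t}

/-- the normalised height `x_β(t) = t log t / 2π + β t` -/
noncomputable def x (β t : ℝ) : ℝ := t * Real.log t / (2 * Real.pi) + β * t

/-- the normalised spacings `x_β(γ_{j+1}) - x_β(γ_j)`; for `β = 0` this is
`(γ_{j+1} log γ_{j+1} - γ_j log γ_j) / 2π` -/
noncomputable def d (β : ℝ) (j : ℕ) : ℝ := x β (γ (j + 1)) - x β (γ j)

/-- the distance of `d_j` from the positive half-integers `1/2, 1, 3/2, …` is at least `η` -/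
def Far (β η : ℝ) (j : ℕ) : Prop := ∀ k : ℕ, 1 ≤ k → η ≤ |d β j - k / 2|

/-- the positions `2 x_β(γ_j)` of the ordinates in `[t - L, t + L]` are within `ρ` of the points
`m_j + φ(γ_j)`, where the `m_j` are strictly increasing integers and `φ` is a real function with
Lipschitz constant `κ` -/
def NearLattice (β L ρ κ t : ℝ) : Prop := ∃ (φ : ℝ → ℝ) (m : ℕ → ℤ),
  (∀ y z : ℝ, |φ y - φ z| ≤ κ * |y - z|) ∧
  (∀ j : ℕ, 1 ≤ j → t - L ≤ γ j → γ j ≤ t + L → |2 * x β (γ j) - φ (γ j) - m j| ≤ ρ) ∧
  (∀ j : ℕ, 1 ≤ j → t - L ≤ γ j → γ (j + 1) ≤ t + L → m j < m (j + 1))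

/-- **Theorem.** Let `β` be real and `ε > 0`. There are `C, c > 0` and `T₀` such that for all
`T ≥ T₀`:
(1) the set of the `t` in `[T, 2T]` for which the positions `2 x_β(γ_j)` of the ordinates in
`[t - C log log T, t + C log log T]` are within `c / √(log T)` of `m_j + φ(γ_j)`, with strictly
increasing integers `m_j` and a function `φ` with Lipschitz constant `c`, has measure at most `ε T`;
(2) the set of the `t` in `[T, 2T]` for which no `j ≥ 1` satisfies
`t - C log log T ≤ γ_j ≤ γ_{j+1} ≤ t + C log log T` and
`dist(d_j, {1/2, 1, 3/2, …}) ≥ c / log T` has measure at most `ε T`;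
(3) there are at least `c T / log log T` indices `j ≥ 1` with `T ≤ γ_j ≤ γ_{j+1} ≤ 3T` and
`dist(d_j, {1/2, 1, 3/2, …}) ≥ c / log T`. -/
theorem result (β ε : ℝ) (hε : 0 < ε) : ∃ C c T₀ : ℝ, 0 < C ∧ 0 < c ∧ ∀ T : ℝ, T₀ ≤ T →
    volume {t : ℝ | T ≤ t ∧ t ≤ 2 * T ∧
      NearLattice β (C * Real.log (Real.log T)) (c / √(Real.log T)) c t} ≤ ENNReal.ofReal (ε * T) ∧
    volume {t : ℝ | T ≤ t ∧ t ≤ 2 * T ∧ ¬ ∃ j : ℕ, 1 ≤ j ∧
      t - C * Real.log (Real.log T) ≤ γ j ∧ γ (j + 1) ≤ t + C * Real.log (Real.log T) ∧
      Far β (c / Real.log T) j} ≤ ENNReal.ofReal (ε * T) ∧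
    c * T / Real.log (Real.log T) ≤
      ({j : ℕ | 1 ≤ j ∧ T ≤ γ j ∧ γ (j + 1) ≤ 3 * T ∧ Far β (c / Real.log T) j}.ncard : ℝ) := by
  obtain ⟨C, c, T₀, hC, hc, h⟩ := Pool.Agent.T9h53.AJ.all_P β ε hε
  refine ⟨C, c, T₀, hC, hc, fun T hT => ?_⟩
  obtain ⟨h1, h2, h3⟩ := h T hT
  refine ⟨h1, le_trans (measure_mono ?_) h2, h3⟩
  rintro t ⟨a1, a2, a3⟩
  refine ⟨a1, a2, fun j j1 j2 j3 => ?_⟩
  by_contra hc
  push Not at hc
  exact a3 ⟨j, j1, j2, j3, hc⟩

end Pool.Agent.Results.MP_f0209c_nt.AlmostAllWindows
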