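import Pool.Agent.T9h26.TD.Kq

/-!
Assume the Riemann hypothesis.  A local limit theorem for the sums of `r` consecutive normalised
spacings of the zeta zeros: the proportion of the `n` with
`r + a ≤ d_n + ... + d_(n+r-1) < r + a + lam` is the one of a normal variable of mean `r` and
variance `log r / π²`, with an error of at most `ε lam / √(log r)`, for all large `r`, as soon as
`lam ≥ A(ε) log log r`.  The same holds for any sequence asymptotic to `d`, so for the sequence of
half-integers next to `d` under the Alternative Hypothesis.

Idea of the proof.  The smoothed number of zeros in a window of length proportional to `r / log T`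
is, up to a bounded error, the length of the window minus the real part of a short prime polynomial,
whose variance is computed by Selberg's formula and whose characteristic function is Gaussian up to
frequencies which are small multiples of `1 / log log r`, by the computation of all its moments of
order at most a multiple of `log r`.  The smoothed number of zeros in the window differs from
the number of zeros by less than a small multiple of `lam` outside a set of very small density (a
negative power of `log r`).  The comparison of the indicator function of an interval with kernels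
whose Fourier transforms have compact support gives the theorem for the measure of the heights, and
the passage to the indices compares the numbers of zeros in short intervals with their lengths.
-/

open Filter Topology

namespace Pool.Agent.Results.MP_f0209c_nt.LocalLimit

/-- multiplicity of `s` as a zero of the Riemann zeta function (order of vanishing at `s`) -/
noncomputable def zmult (s : ℂ) : ℕ := analyticOrderNatAt riemannZeta s

/-- the number of nontrivial zeros of `ζ` with ordinate in `(0, t]`, with multiplicity -/
noncomputable def NZ (t : ℝ) : ℕ :=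
  ∑ᶠ s ∈ {s : ℂ | riemannZeta s = 0 ∧ 0 < s.re ∧ s.re < 1 ∧ 0 < s.im ∧ s.im ≤ t}, zmult s

/-- for `j ≥ 1`: the `j`-th positive ordinate `γ j` of a nontrivial zero of `ζ`, the ordinates being
listed in nondecreasing order and repeated according to multiplicity -/
noncomputable def γ (j : ℕ) : ℝ := sInf {t : ℝ | j ≤ NZ t}

/-- the normalised spacings `d_j = γ_{j+1} log γ_{j+1} / 2π - γ_j log γ_j / 2π` -/
noncomputable def d (j : ℕ) : ℝ :=
  (γ (j + 1) * Real.log (γ (j + 1)) - γ j * Real.log (γ j)) / (2 * Real.pi)

/-- the sum of `r` consecutive terms of the sequence `ρ` from the `n`-th on -/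
noncomputable def S (ρ : ℕ → ℝ) (r n : ℕ) : ℝ := ∑ i ∈ Finset.range r, ρ (n + i)

/-- On the Riemann hypothesis, for every `ε > 0` there are `A` and `r0` such that for all integers
`r ≥ r0` and all real `a` and `lam` with `|a| ≤ log r` and `A log log r ≤ lam ≤ √(log r) / A`, and
for every real sequence `ρ` with `d_j - ρ_j → 0` (for instance `ρ = d`), for all large `N`, the
number of `1 ≤ n ≤ N` with `r + a ≤ ρ_n + ... + ρ_(n+r-1) < r + a + lam` differs from
`lam √(π / (2 log r)) exp (-π² a² / (2 log r)) N` by at most `ε lam N / √(log r)`. -/
theorem result (RH : RiemannHypothesis) : ∀ ε : ℝ, 0 < ε → ∃ A r0 : ℝ, 1 ≤ A ∧ 10 ≤ r0 ∧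
    ∀ (r : ℕ) (a lam : ℝ), r0 ≤ r → |a| ≤ Real.log r → A * Real.log (Real.log r) ≤ lam →
      A * lam ≤ √(Real.log r) → ∀ ρ : ℕ → ℝ, Tendsto (fun j => d j - ρ j) atTop (𝓝 0) →
        ∀ᶠ N : ℕ in atTop,
          |(({n : ℕ | 1 ≤ n ∧ n ≤ N ∧ r + a ≤ S ρ r n ∧ S ρ r n < r + a + lam}.ncard : ℕ) : ℝ) -
            lam * √(Real.pi / (2 * Real.log r)) *
              Real.exp (-(Real.pi ^ 2 * a ^ 2 / (2 * Real.log r))) * N| ≤
            ε * (lam / √(Real.log r)) * N := by
  intro ε hε
  obtain ⟨A, r0, hA, hr0, h⟩ := T9h26.TD.llt_all RH hε
  refine ⟨A, r0, hA, hr0, fun r a lam hr ha h1 h2 ρ hρ => ?_⟩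
  have h3 := h r a lam hr ha h1 h2 ρ hρ
  filter_upwards [h3] with N hN
  rw [mul_assoc lam]
  exact hN

end Pool.Agent.Results.MP_f0209c_nt.LocalLimit
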