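import Pool.Agent.T9h61.AH.COREL

/-!
# The Alternative Hypothesis with error `O(1 / log γ)` fails for many spacings

Assume the Riemann hypothesis. For real `β` let `x_β(t) = t log t / 2π + β t` and
`d_j = x_β(γ_{j+1}) - x_β(γ_j)` (for `β = 0` the normalised spacings). For all real `C`, `β` and all
`ε > 0` there is `B` such that every interval `[T, B T]` with `T` large contains at least
`T ^ (1 - ε)` consecutive pairs of ordinates with `d_j < 1/2 - C / log γ_j`.

Idea of the proof. Let `δ = (π / log T)(1 - C / log T)`. As in `NoErrorBoundOverLog` one studies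
a quadratic form in the coefficients of `A(s) = ∑_{n ≤ N} μ(n) n^(-s)`, `N = e^K T`, but with a
Gaussian weight of the short width `T^η` around a centre `t₀`. If the zeros in the short window
`|γ - t₀| ≤ T^(2η)` are simple and more than `δ` apart, the residue theorem in this window gives
the sign of the form. For the other centres the form is at most `T^(o(1))`, because under the
Riemann hypothesis `A(1/2 + it) ≪ T^(o(1))`. On average over the centres the form is at most
`- c T` (by the sign of the diagonal and Tao's theorem on the correlations of `μ`), so that there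
are at least `T^(1 - O(η))` exceptional windows. The terms near the diagonal, which are
not small for a fixed centre of so short a window, are small in mean square.
-/

open Filter Topology

namespace Pool.Agent.Results.MP_f0209c_nt.ManyGapsBelowHalf

/-- multiplicity of `s` as a zero of the Riemann zeta function (order of vanishing at `s`) -/
noncomputable def zmult (s : ℂ) : ℕ := analyticOrderNatAt riemannZeta s

/-- the nontrivial zeros of `ζ` with ordinate in `(0, T]` -/
def zeros (T : ℝ) : Set ℂ := {s : ℂ | riemannZeta s = 0 ∧ 0 < s.re ∧ s.re < 1 ∧ 0 < s.im ∧ s.im ≤ T}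

/-- the number of the nontrivial zeros of `ζ` with ordinate in `(0, T]`, with multiplicity -/
noncomputable def N (T : ℝ) : ℕ := ∑ᶠ s ∈ zeros T, zmult s

/-- for `j ≥ 1`: the `j`-th positive ordinate `γ j` of a nontrivial zero of `ζ`, the ordinates being
listed in nondecreasing order and repeated according to multiplicity -/
noncomputable def γ (j : ℕ) : ℝ := sInf {t : ℝ | j ≤ N t}

/-- the normalised height `x_β(t) = t log t / 2π + β t` -/
noncomputable def x (β t : ℝ) : ℝ := t * Real.log t / (2 * Real.pi) + β * t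

/-- the normalised spacings `x_β(γ_{j+1}) - x_β(γ_j)`; for `β = 0` this is
`(γ_{j+1} log γ_{j+1} - γ_j log γ_j) / 2π` -/
noncomputable def d (β : ℝ) (j : ℕ) : ℝ := x β (γ (j + 1)) - x β (γ j)

lemma ord_eq (n : ℕ) : γ n = SG.ord n := rfl

/-- **Theorem.** Assume the Riemann hypothesis, let `β` and `C` be real and `ε > 0`. There are `B`
and `T₀` such that for all `T ≥ T₀` at least `T ^ (1 - ε)` of the indices `j ≥ 1` with
`T ≤ γ_j ≤ γ_{j+1} ≤ B T` satisfy `d_j < 1/2 - C / log γ_j` (so `|d_j - k / 2| > C / log γ_j` for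
all `k = 1, 2, 3, …`). -/
theorem result (RH : RiemannHypothesis) (β C ε : ℝ) (hε : 0 < ε) :
    ∃ B T₀ : ℝ, ∀ T : ℝ, T₀ ≤ T →
      T ^ (1 - ε) ≤ ({j : ℕ | 1 ≤ j ∧ T ≤ γ j ∧ γ (j + 1) ≤ B * T ∧
        d β j < 1 / 2 - C / Real.log (γ j) ∧
        ∀ k : ℕ, 1 ≤ k → C / Real.log (γ j) < |d β j - k / 2|}.ncard : ℝ) := by
  obtain ⟨B, T₀, h⟩ := Pool.Agent.T9h61.AH.many_gaps RH C β ε hε
  refine ⟨B, T₀, fun T hT => ?_⟩
  have e : {j : ℕ | 1 ≤ j ∧ T ≤ γ j ∧ γ (j + 1) ≤ B * T ∧
        d β j < 1 / 2 - C / Real.log (γ j) ∧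
        ∀ k : ℕ, 1 ≤ k → C / Real.log (γ j) < |d β j - k / 2|} =
      {j : ℕ | 1 ≤ j ∧ T ≤ SG.ord j ∧ SG.ord (j + 1) ≤ B * T ∧
        (SG.ord (j + 1) * Real.log (SG.ord (j + 1)) - SG.ord j * Real.log (SG.ord j)) /
          (2 * Real.pi) + β * (SG.ord (j + 1) - SG.ord j) < 1 / 2 - C / Real.log (SG.ord j)} := by
    ext j
    have e1 : d β j = (SG.ord (j + 1) * Real.log (SG.ord (j + 1)) -
        SG.ord j * Real.log (SG.ord j)) / (2 * Real.pi) + β * (SG.ord (j + 1) - SG.ord j) := by
      simp only [d, x, ord_eq]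
      ring
    simp only [Set.mem_ofPred_eq, e1, ord_eq]
    constructor
    · rintro ⟨h1, h2, h3, h4, -⟩
      exact ⟨h1, h2, h3, h4⟩
    · rintro ⟨h1, h2, h3, h4⟩
      refine ⟨h1, h2, h3, h4, fun k hk => ?_⟩
      have hk1 : (1 : ℝ) ≤ k := by exact_mod_cast hk
      rw [abs_sub_comm]
      refine lt_of_lt_of_le ?_ (le_abs_self _)
      linarith
  rw [e]
  exact h T hT

end Pool.Agent.Results.MP_f0209c_nt.ManyGapsBelowHalf
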