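import Pool.Agent.T9h26.TD.Qk

/-!
Assume the Riemann hypothesis.  Long runs of consecutive zeta zeros do not follow any of a small
number of patterns: for any real sequences `a`, the proportion of the `n` for which the sums
`d_n + ... + d_(n+k-1)` stay within `K` of `a_k` for one of the given `a` and all `k ≤ L` is at most
the number of the sequences times `exp (-c_K √L)`, with `c_K = exp (-C K²)`.  Consequently, if the
normalised spacings `d_j` are asymptotic to a sequence `r_j` (under the Alternative Hypothesis: a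
sequence of half-integers), then `r` has at least `exp (c √L)` words of length `L`.

Idea of the proof.  Take `J` windows of length `R` (a multiple of `J`), spaced by `D`, after the
`n`-th zero.  The smoothed number of zeros in the `j`-th window is, up to a bounded error, the
length of the window minus the real part of a short prime polynomial, and the pattern determines
it up to `O(K)`.  The products of these `J` polynomials, composed with a positive definite test
function made of cosines, have computable mean values, because the bandwidth of each of them is a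
small multiple of `1 / J`.  The variances are at least a multiple of `log m`, where `m` is the
ratio of the window to the smoothing scale, so for `log m` a large multiple of `K²` all `J` of them
can be within `O(K)` of given values only on a set of density `exp (-J / 4)`, and `L` can be taken
as a multiple of `J²`.
-/

open Filter Topology

namespace Pool.Agent.Results.MP_f0209c_nt.Patterns

/-- multiplicity of `s` as a zero of the Riemann zeta function (order of vanishing at `s`) -/
noncomputable def zmult (s : ℂ) : ℕ := analyticOrderNatAt riemannZeta s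

/-- the number of nontrivial zeros of `ζ` with ordinate in `(0, t]`, with multiplicity -/
noncomputable def NZ (t : ℝ) : ℕ :=
  ∑ᶠ s ∈ {s : ℂ | riemannZeta s = 0 ∧ 0 < s.re ∧ s.re < 1 ∧ 0 < s.im ∧ s.im ≤ t}, zmult s

/-- for `j ≥ 1`: the `j`-th positive ordinate `γ j` of a nontrivial zero of `ζ`, the ordinates being
listed in nondecreasing order and repeated according to multiplicity -/
noncomputable def γ (j : ℕ) : ℝ := sInf {t : ℝ | j ≤ NZ t}

/-- the normalised spacings `d_j = γ_{j+1} log γ_{j+1} / 2π - γ_j log γ_j / 2π` -/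
noncomputable def d (j : ℕ) : ℝ :=
  (γ (j + 1) * Real.log (γ (j + 1)) - γ j * Real.log (γ j)) / (2 * Real.pi)

lemma sum_d (n k : ℕ) : ∑ i ∈ Finset.range k, d (n + i) = T9h26.TD.hk n k := by
  have h : T9h26.TD.hk n k = (γ (n + k) * Real.log (γ (n + k)) - γ n * Real.log (γ n)) /
      (2 * Real.pi) := rfl
  rw [h]
  induction k with
  | zero => simp
  | succ k ih =>
    rw [Finset.sum_range_succ, ih rfl]
    have h2 : d (n + k) = (γ (n + (k + 1)) * Real.log (γ (n + (k + 1))) -
        γ (n + k) * Real.log (γ (n + k))) / (2 * Real.pi) := rfl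
    rw [h2]
    ring

/-- the index `n` follows the pattern `a` within `K` for `L` steps: the sums
`d_n + ... + d_(n+k-1)` are within `K` of `a k` for `1 ≤ k ≤ L` -/
def Follows (K : ℝ) (L : ℕ) (a : ℕ → ℝ) (n : ℕ) : Prop :=
  ∀ k : ℕ, 1 ≤ k → k ≤ L → |∑ i ∈ Finset.range k, d (n + i) - a k| ≤ K

/-- many patterns -/
lemma many {p : ℝ} {K : ℝ} {L N : ℕ}
    (h : ∀ a : ℕ → ℝ, (({n : ℕ | 1 ≤ n ∧ n ≤ N ∧ Follows K L a n}.ncard : ℕ) : ℝ) ≤ p * N)
    (A : Finset (ℕ → ℝ)) :
    (({n : ℕ | 1 ≤ n ∧ n ≤ N ∧ ∃ a ∈ A, Follows K L a n}.ncard : ℕ) : ℝ) ≤ A.card * p * N := by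
  classical
  have hfin : ∀ P : ℕ → Prop, {n : ℕ | 1 ≤ n ∧ n ≤ N ∧ P n}.Finite := fun P =>
    (Finset.finite_toSet (Finset.Icc 1 N)).subset (by
      intro n hn
      exact Finset.mem_coe.2 (Finset.mem_Icc.2 ⟨hn.1, hn.2.1⟩))
  induction A using Finset.induction_on with
  | empty => simp
  | insert a A ha ih =>
    have e : {n : ℕ | 1 ≤ n ∧ n ≤ N ∧ ∃ b ∈ insert a A, Follows K L b n} ⊆
        {n : ℕ | 1 ≤ n ∧ n ≤ N ∧ Follows K L a n} ∪
        {n : ℕ | 1 ≤ n ∧ n ≤ N ∧ ∃ b ∈ A, Follows K L b n} := by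
      rintro n ⟨h1, h2, b, hb, h3⟩
      rcases Finset.mem_insert.1 hb with rfl | hb
      · exact Or.inl ⟨h1, h2, h3⟩
      · exact Or.inr ⟨h1, h2, b, hb, h3⟩
    have h1 : ({n : ℕ | 1 ≤ n ∧ n ≤ N ∧ ∃ b ∈ insert a A, Follows K L b n}.ncard : ℝ) ≤
        {n : ℕ | 1 ≤ n ∧ n ≤ N ∧ Follows K L a n}.ncard +
        {n : ℕ | 1 ≤ n ∧ n ≤ N ∧ ∃ b ∈ A, Follows K L b n}.ncard := by
      exact_mod_cast (Set.ncard_le_ncard e ((hfin _).union (hfin _))).trans
        (Set.ncard_union_le _ _)
    rw [Finset.card_insert_of_notMem ha]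
    push_cast
    have h2 := h a
    linarith

/-- On the Riemann hypothesis: (i) there is `C ≥ 1` such that for all `K ≥ 1` and `L ≥ exp (C K²)`,
for all large `N` and all finite sets `A` of real sequences, the number of `1 ≤ n ≤ N` which follow
one of the sequences of `A` within `K` for `L` steps is at most
`|A| exp (-exp (-C K²) √L) N`; (ii) there is `c > 0` such that for all large `L`: if a real sequence
`r` satisfies `d_j - r_j → 0`, then for any set `W` of fewer than `exp (c √L)` words of length `L`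
there are infinitely many `n` with `(r_n, ..., r_(n+L-1))` not in `W`. -/
theorem result (RH : RiemannHypothesis) :
    (∃ C : ℝ, 1 ≤ C ∧ ∀ K : ℝ, 1 ≤ K → ∀ L : ℕ, Real.exp (C * K ^ 2) ≤ L →
      ∀ᶠ N : ℕ in atTop, ∀ A : Finset (ℕ → ℝ),
        (({n : ℕ | 1 ≤ n ∧ n ≤ N ∧ ∃ a ∈ A, Follows K L a n}.ncard : ℕ) : ℝ) ≤
          A.card * Real.exp (-(Real.exp (-(C * K ^ 2)) * √L)) * N) ∧
    (∃ c : ℝ, 0 < c ∧ ∃ L0 : ℕ, ∀ L : ℕ, L0 ≤ L → ∀ r : ℕ → ℝ,
      Tendsto (fun j => d j - r j) atTop (𝓝 0) → ∀ W : Finset (Fin L → ℝ),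
        (W.card : ℝ) < Real.exp (c * √L) →
        ∃ᶠ n in atTop, (fun i : Fin L => r (n + i)) ∉ W) := by
  classical
  obtain ⟨C, hC, h⟩ := T9h26.TD.pat_all RH
  have h1 : ∀ K : ℝ, 1 ≤ K → ∀ L : ℕ, Real.exp (C * K ^ 2) ≤ L →
      ∀ᶠ N : ℕ in atTop, ∀ A : Finset (ℕ → ℝ),
        (({n : ℕ | 1 ≤ n ∧ n ≤ N ∧ ∃ a ∈ A, Follows K L a n}.ncard : ℕ) : ℝ) ≤
          A.card * Real.exp (-(Real.exp (-(C * K ^ 2)) * √L)) * N := by
    intro K hK L hL
    filter_upwards [h K hK L hL] with N hN A
    refine many (fun a => ?_) A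
    have e : {n : ℕ | 1 ≤ n ∧ n ≤ N ∧ Follows K L a n} =
        {n : ℕ | 1 ≤ n ∧ n ≤ N ∧ T9h26.TD.Fol K L a n} := by
      ext n
      simp only [Follows, sum_d]
      rfl
    rw [e]
    exact hN a
  refine ⟨⟨C, hC, h1⟩, ?_⟩
  set c : ℝ := Real.exp (-C) / 2 with hc
  have hc0 : 0 < c := by positivity
  refine ⟨c, hc0, ⌈max (Real.exp C) ((1 / c) ^ 2)⌉₊, fun L hL r hr W hW => ?_⟩
  have hL' : max (Real.exp C) ((1 / c) ^ 2) ≤ L := (Nat.le_ceil _).trans (by exact_mod_cast hL)
  have hL1 : Real.exp C ≤ L := (le_max_left _ _).trans hL'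
  have hL2 : (1 / c) ^ 2 ≤ L := (le_max_right _ _).trans hL'
  have hcL : 1 ≤ c * √L := by
    have := Real.le_sqrt_of_sq_le hL2
    rw [div_le_iff₀ hc0] at this
    linarith
  by_contra hcon
  rw [not_frequently] at hcon
  have hr' : ∀ᶠ j in atTop, |d j - r j| ≤ 1 / (L + 1) := by
    have h2 := (Metric.tendsto_nhds.1 hr) (1 / (L + 1)) (by positivity)
    filter_upwards [h2] with j hj
    rw [Real.dist_eq, sub_zero] at hj
    exact hj.le
  obtain ⟨n1, hn1⟩ := eventually_atTop.1 hcon
  obtain ⟨n2, hn2⟩ := eventually_atTop.1 hr'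
  set ext : (Fin L → ℝ) → ℕ → ℝ := fun w k =>
    ∑ i ∈ Finset.range k, if hi : i < L then w ⟨i, hi⟩ else 0 with hext
  set A : Finset (ℕ → ℝ) := W.image ext with hA
  have hAW : A.card ≤ W.card := Finset.card_image_le
  obtain ⟨N1, hN1⟩ := eventually_atTop.1 (h1 1 le_rfl L (by rw [one_pow, mul_one]; exact hL1))
  set n0 := max (max n1 n2) 1 with hn0
  -- every large index follows one of the patterns
  have hfol : ∀ n, n0 ≤ n → ∃ a ∈ A, Follows 1 L a n := by
    intro n hn
    have q1 := hn1 n (((le_max_left _ _).trans (le_max_left _ _)).trans hn)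
    rw [not_not] at q1
    refine ⟨ext (fun i : Fin L => r (n + i)), Finset.mem_image_of_mem _ q1, ?_⟩
    intro k hk1 hkL
    have e1 : ext (fun i : Fin L => r (n + i)) k = ∑ i ∈ Finset.range k, r (n + i) := by
      rw [hext]
      apply Finset.sum_congr rfl
      intro i hi
      rw [Finset.mem_range] at hi
      rw [dif_pos (by omega)]
    rw [e1, ← Finset.sum_sub_distrib]
    calc |∑ i ∈ Finset.range k, (d (n + i) - r (n + i))| ≤
        ∑ i ∈ Finset.range k, |d (n + i) - r (n + i)| := Finset.abs_sum_le_sum_abs _ _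
      _ ≤ ∑ _i ∈ Finset.range k, 1 / ((L : ℝ) + 1) := by
          apply Finset.sum_le_sum
          intro i _
          apply hn2
          have : n2 ≤ n := ((le_max_right _ _).trans (le_max_left _ _)).trans hn
          omega
      _ = k / ((L : ℝ) + 1) := by
          rw [Finset.sum_const, Finset.card_range, nsmul_eq_mul]
          ring
      _ ≤ 1 := by
          rw [div_le_one (by positivity)]
          have : (k : ℝ) ≤ L := by exact_mod_cast hkL
          linarith
  -- count
  set N := max N1 (4 * n0) with hN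
  have hNN1 : N1 ≤ N := le_max_left _ _
  have hN4 : 4 * n0 ≤ N := le_max_right _ _
  have hn01 : 1 ≤ n0 := le_max_right _ _
  have k1 := hN1 N hNN1 A
  have hsub : (Finset.Icc n0 N : Set ℕ) ⊆
      {n : ℕ | 1 ≤ n ∧ n ≤ N ∧ ∃ a ∈ A, Follows 1 L a n} := by
    intro n hn
    rw [Finset.mem_coe, Finset.mem_Icc] at hn
    exact ⟨hn01.trans hn.1, hn.2, hfol n hn.1⟩
  have hfin : {n : ℕ | 1 ≤ n ∧ n ≤ N ∧ ∃ a ∈ A, Follows 1 L a n}.Finite :=
    (Finset.finite_toSet (Finset.Icc 1 N)).subset (by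
      intro n hn
      exact Finset.mem_coe.2 (Finset.mem_Icc.2 ⟨hn.1, hn.2.1⟩))
  have k2 := Set.ncard_le_ncard hsub hfin
  rw [Set.ncard_coe_finset, Nat.card_Icc] at k2
  have k3 : (N : ℝ) + 1 - n0 ≤ ({n : ℕ | 1 ≤ n ∧ n ≤ N ∧ ∃ a ∈ A, Follows 1 L a n}.ncard : ℝ) := by
    have : N + 1 ≤ {n : ℕ | 1 ≤ n ∧ n ≤ N ∧ ∃ a ∈ A, Follows 1 L a n}.ncard + n0 := by omega
    have : (N : ℝ) + 1 ≤
        ({n : ℕ | 1 ≤ n ∧ n ≤ N ∧ ∃ a ∈ A, Follows 1 L a n}.ncard : ℝ) + n0 := by
      exact_mod_cast this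
    linarith
  have hNr : 4 * (n0 : ℝ) ≤ N := by exact_mod_cast hN4
  have hn0r : (1 : ℝ) ≤ n0 := by exact_mod_cast hn01
  have hNpos : 0 < (N : ℝ) := by linarith
  have hAr : (A.card : ℝ) ≤ Real.exp (c * √L) := by
    have : (A.card : ℝ) ≤ W.card := by exact_mod_cast hAW
    linarith
  rw [one_pow, mul_one] at k1
  have e2 : Real.exp (-(Real.exp (-C) * √L)) = Real.exp (-(c * √L)) * Real.exp (-(c * √L)) := by
    rw [← Real.exp_add]
    congr 1
    rw [hc]
    ring
  have k4 : (A.card : ℝ) * Real.exp (-(Real.exp (-C) * √L)) ≤ 1 / 2 := by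
    rw [e2, ← mul_assoc]
    have q1 : (A.card : ℝ) * Real.exp (-(c * √L)) ≤ 1 := by
      calc (A.card : ℝ) * Real.exp (-(c * √L)) ≤ Real.exp (c * √L) * Real.exp (-(c * √L)) :=
            mul_le_mul_of_nonneg_right hAr (Real.exp_pos _).le
        _ = 1 := by rw [← Real.exp_add]; simp
    have q2 : Real.exp (-(c * √L)) ≤ 1 / 2 := by
      have q3 : Real.exp (-(c * √L)) ≤ Real.exp (-1) := Real.exp_le_exp.2 (by linarith)
      have q4 : Real.exp (-1) ≤ 1 / 2 := by
        rw [Real.exp_neg, inv_le_comm₀ (Real.exp_pos _) (by norm_num)]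
        have := Real.add_one_le_exp (1 : ℝ)
        norm_num
        linarith
      exact q3.trans q4
    calc (A.card : ℝ) * Real.exp (-(c * √L)) * Real.exp (-(c * √L)) ≤ 1 * (1 / 2) :=
          mul_le_mul q1 q2 (Real.exp_pos _).le (by norm_num)
      _ = 1 / 2 := one_mul _
  have k5 := mul_le_mul_of_nonneg_right k4 hNpos.le
  linarith

end Pool.Agent.Results.MP_f0209c_nt.Patterns
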